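import Pool.Agent.H46.EXC.StmtsY
import Pool.Agent.H22.VIO.FIV

/-!
# EXC, module YFI: the final statement with the parameter `Y` (after XFI, `H36/EXC/XFI`)
-/

set_option autoImplicit false

namespace Pool.EXC

open Finset Pool.Agent.H98.ABCR Pool.SHA Pool.ABY Pool.VIO
open Pool.VIO.H22V

namespace H78Y

/-- dyadic summation over the radical -/
lemma bnd (Q : ℕ × ℕ → Prop) (κ' α δ C1 W : ℝ) (hα0 : 0 ≤ α) (hα : α ≤ 2) (hδ : 0 < δ)
    (hC1 : 1 ≤ C1) (hκ : 1 ≤ κ') (hW : 0 ≤ W)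
    (h : ∀ (X : ℝ) (F : Finset (ℕ × ℕ)), 1 ≤ X →
      (∀ v ∈ F, IsTri v ∧ (RR v : ℝ) ≤ X ∧ Q v ∧ κ' * (1 + Real.log X) ≤ hh v) →
      (F.card : ℝ) ≤ C1 * X ^ α * W)
    (X : ℝ) (F : Finset (ℕ × ℕ)) (hX : 1 ≤ X)
    (hF : ∀ v ∈ F, IsTri v ∧ (RR v : ℝ) ≤ X ∧ Q v ∧
      (RR v : ℝ) ^ (4 * κ') < ((v.1 + v.2 : ℕ) : ℝ)) :
    (F.card : ℝ) ≤ (2 / δ + 1) * (4 * C1) * X ^ (α + δ) * W := by
  classical
  have hX0 : 0 < X := by linarith
  -- classes
  have hcard : F.card = ∑ j ∈ Finset.range (Nat.log 2 ⌊X⌋₊ + 1),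
      (F.filter (fun v => Nat.log 2 (RR v) = j)).card := by
    apply Finset.card_eq_sum_card_fiberwise
    intro v hv
    rw [Finset.mem_coe, Finset.mem_range, Nat.lt_succ_iff]
    exact Nat.log_mono_right (Nat.le_floor (hF v hv).2.1)
  have hfib : ∀ j ∈ Finset.range (Nat.log 2 ⌊X⌋₊ + 1),
      ((F.filter (fun v => Nat.log 2 (RR v) = j)).card : ℝ) ≤ 4 * C1 * X ^ α * W := by
    intro j hj
    rw [Finset.mem_range, Nat.lt_succ_iff] at hj
    have h1 := h ((2 : ℝ) ^ (j + 1)) (F.filter (fun v => Nat.log 2 (RR v) = j))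
      (one_le_pow₀ (by norm_num)) (by
        intro v hv
        rw [Finset.mem_filter] at hv
        obtain ⟨hvF, hvj⟩ := hv
        obtain ⟨ht, hR, hQ, hc⟩ := hF v hvF
        have h2 := two_le_RR ht
        have h3 : RR v < 2 ^ (j + 1) := by
          rw [← hvj]; exact Nat.lt_pow_succ_log_self (by norm_num) _
        have h4 : 2 ^ j ≤ RR v := by
          rw [← hvj]; exact Nat.pow_log_le_self 2 (by omega)
        refine ⟨ht, by exact_mod_cast h3.le, hQ, ?_⟩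
        have h5 : (2 : ℝ) ^ (j + 1) ≤ (RR v : ℝ) ^ 2 := by
          have h6 : 2 ^ (j + 1) ≤ RR v ^ 2 := by
            rw [pow_succ, sq]
            exact Nat.mul_le_mul h4 h2
          exact_mod_cast h6
        have hR0 : (0 : ℝ) < RR v := by exact_mod_cast RR_pos v
        have h7 : Real.log ((2 : ℝ) ^ (j + 1)) ≤ 2 * Real.log (RR v) := by
          have h8 := Real.log_le_log (by positivity) h5
          rwa [Real.log_pow (n := 2), Nat.cast_ofNat] at h8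
        have h7' : 1 ≤ 2 * Real.log (RR v) := by
          have h8 : Real.log 2 ≤ Real.log (RR v) :=
            Real.log_le_log (by norm_num) (by exact_mod_cast h2)
          have := Real.log_two_gt_d9
          linarith
        have h9 : 4 * κ' * Real.log (RR v) < hh v := by
          unfold hh
          rw [← Real.log_rpow hR0]
          exact Real.log_lt_log (by positivity) hc
        calc κ' * (1 + Real.log ((2 : ℝ) ^ (j + 1))) ≤
              κ' * (2 * Real.log (RR v) + 2 * Real.log (RR v)) :=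
              mul_le_mul_of_nonneg_left (by linarith) (by linarith)
          _ = 4 * κ' * Real.log (RR v) := by ring
          _ ≤ hh v := h9.le)
    refine h1.trans ?_
    have h2 : (2 : ℝ) ^ (j + 1) ≤ 2 * X := by
      have h3 : 2 ^ j ≤ ⌊X⌋₊ := by
        refine le_trans (Nat.pow_le_pow_right (by norm_num) hj) (Nat.pow_log_le_self 2 ?_)
        have : 1 ≤ ⌊X⌋₊ := Nat.le_floor (by exact_mod_cast hX)
        omega
      have h4 : ((2 : ℝ)) ^ j ≤ X := le_trans (by exact_mod_cast h3) (Nat.floor_le hX0.le)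
      rw [pow_succ]; linarith
    have h3 : ((2 : ℝ) ^ (j + 1)) ^ α ≤ (2 * X) ^ α :=
      Real.rpow_le_rpow (by positivity) h2 hα0
    have h4 : (2 * X) ^ α ≤ 4 * X ^ α := by
      rw [Real.mul_rpow (by norm_num) hX0.le]
      have h5 : (2 : ℝ) ^ α ≤ 4 := by
        calc (2 : ℝ) ^ α ≤ (2 : ℝ) ^ (2 : ℝ) :=
              Real.rpow_le_rpow_of_exponent_le (by norm_num) hα
          _ = 4 := by norm_num
      exact mul_le_mul_of_nonneg_right h5 (by positivity)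
    calc C1 * ((2 : ℝ) ^ (j + 1)) ^ α * W ≤ C1 * (4 * X ^ α) * W :=
          mul_le_mul_of_nonneg_right
            (mul_le_mul_of_nonneg_left (h3.trans h4) (by linarith)) hW
      _ = 4 * C1 * X ^ α * W := by ring
  have hlog : ((Nat.log 2 ⌊X⌋₊ + 1 : ℕ) : ℝ) ≤ (2 / δ + 1) * X ^ δ := by
    have h0 : ⌊X⌋₊ ≠ 0 := by
      have : 1 ≤ ⌊X⌋₊ := Nat.le_floor (by exact_mod_cast hX)
      omega
    have h1 : ((2 : ℝ)) ^ (Nat.log 2 ⌊X⌋₊) ≤ X := by
      have h2 := Nat.pow_log_le_self 2 h0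
      exact le_trans (by exact_mod_cast h2) (Nat.floor_le hX0.le)
    have h2 : (Nat.log 2 ⌊X⌋₊ : ℝ) * Real.log 2 ≤ Real.log X := by
      rw [← Real.log_pow]
      exact Real.log_le_log (by positivity) h1
    have h3 : Real.log X ≤ X ^ δ / δ := Real.log_le_rpow_div hX0.le hδ
    have h4 : (1 : ℝ) / 2 ≤ Real.log 2 := by
      have := Real.log_two_gt_d9
      linarith
    have h5 : (Nat.log 2 ⌊X⌋₊ : ℝ) ≤ 2 * Real.log X := by
      have h6 : (0 : ℝ) ≤ (Nat.log 2 ⌊X⌋₊ : ℝ) := Nat.cast_nonneg _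
      nlinarith
    have h6 : 1 ≤ X ^ δ := Real.one_le_rpow hX hδ.le
    push_cast
    calc (Nat.log 2 ⌊X⌋₊ : ℝ) + 1 ≤ 2 * (X ^ δ / δ) + X ^ δ := by linarith
      _ = (2 / δ + 1) * X ^ δ := by ring
  rw [hcard, Nat.cast_sum]
  calc ∑ j ∈ Finset.range (Nat.log 2 ⌊X⌋₊ + 1),
        ((F.filter (fun v => Nat.log 2 (RR v) = j)).card : ℝ)
      ≤ ∑ _j ∈ Finset.range (Nat.log 2 ⌊X⌋₊ + 1), 4 * C1 * X ^ α * W :=
        Finset.sum_le_sum hfib
    _ = ((Nat.log 2 ⌊X⌋₊ + 1 : ℕ) : ℝ) * (4 * C1 * X ^ α * W) := by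
        rw [Finset.sum_const, nsmul_eq_mul, Finset.card_range]
    _ ≤ ((2 / δ + 1) * X ^ δ) * (4 * C1 * X ^ α * W) :=
        mul_le_mul_of_nonneg_right hlog (by positivity)
    _ = (2 / δ + 1) * (4 * C1) * (X ^ α * X ^ δ) * W := by ring
    _ = (2 / δ + 1) * (4 * C1) * X ^ (α + δ) * W := by
        rw [← Real.rpow_add hX0]


lemma rad_mul' {a b : ℕ} (h : a.Coprime b) : rad (a * b) = rad a * rad b := by
  unfold rad
  rw [h.primeFactors_mul, Finset.prod_union h.disjoint_primeFactors]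

lemma RR_eq' {v : ℕ × ℕ} (hv : IsTri v) : RR v = rad v.1 * rad v.2 * rad (v.1 + v.2) := by
  obtain ⟨-, -, hc⟩ := hv
  have c1 : (v.1 * v.2).Coprime (v.1 + v.2) := by
    apply Nat.Coprime.mul_left
    · simpa using hc
    · simpa [Nat.coprime_comm] using hc
  unfold RR nn
  rw [rad_mul' c1, rad_mul' hc]

/-- one of the three radicals is at most `X ^ (1 / 3)` -/
lemma small {v : ℕ × ℕ} (hv : IsTri v) {X : ℝ} (hX : 0 < X) (h : (RR v : ℝ) ≤ X) :
    SmallY (X ^ (1 / 3 : ℝ)) v := by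
  by_contra hc
  have hc' : ∀ k, X ^ (1 / 3 : ℝ) < (rad (coord v k) : ℝ) := fun k =>
    not_le.1 fun hk => hc ⟨k, hk⟩
  have h0 := hc' 0
  have h1 := hc' 1
  have h2 := hc' 2
  change X ^ (1 / 3 : ℝ) < (rad v.1 : ℝ) at h0
  change X ^ (1 / 3 : ℝ) < (rad v.2 : ℝ) at h1
  change X ^ (1 / 3 : ℝ) < (rad (v.1 + v.2) : ℝ) at h2
  have hp : 0 < X ^ (1 / 3 : ℝ) := Real.rpow_pos_of_pos hX _
  have h3 : X ^ (1 / 3 : ℝ) * X ^ (1 / 3 : ℝ) * X ^ (1 / 3 : ℝ) <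
      (rad v.1 : ℝ) * (rad v.2 : ℝ) * (rad (v.1 + v.2) : ℝ) :=
    mul_lt_mul'' (mul_lt_mul'' h0 h1 hp.le hp.le) h2 (by positivity) hp.le
  have h4 : X ^ (1 / 3 : ℝ) * X ^ (1 / 3 : ℝ) * X ^ (1 / 3 : ℝ) = X := by
    rw [← Real.rpow_add hX, ← Real.rpow_add hX]
    norm_num
  have h5 : (RR v : ℝ) = (rad v.1 : ℝ) * (rad v.2 : ℝ) * (rad (v.1 + v.2) : ℝ) := by
    rw [RR_eq' hv]
    push_cast
    ring
  rw [h4, ← h5] at h3
  linarith

end H78Y

open H78Y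

theorem yfi_thm (hY : S_YAL) : S_YFI := by
  intro ε hε
  have he1 : 0 < min ε 1 / 2 := by
    have : 0 < min ε 1 := lt_min hε one_pos
    linarith
  have he2 : min ε 1 / 2 ≤ 1 := by
    have := min_le_right ε 1
    linarith
  have he3 : min ε 1 / 2 + min ε 1 / 2 ≤ ε := by
    have := min_le_left ε 1
    linarith
  obtain ⟨κ, C1, hκ, hC1, h⟩ := hY (min ε 1 / 2) he1 he2
  set δ := min ε 1 / 2 with hδ
  have hmain : ∀ (X Y : ℝ) (F : Finset (ℕ × ℕ)), 1 ≤ X → 1 ≤ Y →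
      (∀ v ∈ F, IsTri v ∧ (RR v : ℝ) ≤ X ∧ SmallY Y v ∧
        (RR v : ℝ) ^ (4 * κ) < ((v.1 + v.2 : ℕ) : ℝ)) →
      (F.card : ℝ) ≤ (2 / δ + 1) * (4 * C1) * X ^ (1 / 4 + ε) * Y ^ (1 / 4 : ℝ) := by
    intro X Y F hX hY1 hF
    have hW : 0 ≤ Y ^ (1 / 4 : ℝ) := by positivity
    have h1 := bnd (SmallY Y) κ (1 / 4 + δ) δ C1 (Y ^ (1 / 4 : ℝ)) (by linarith) (by linarith)
      he1 hC1 hκ hW (by
        intro X' F' hX' hF'
        have hX0 : 0 < X' := by linarith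
        refine (h X' Y F' hX' hY1 hF').trans (le_of_eq ?_)
        rw [Real.mul_rpow hX0.le (by linarith), Real.rpow_add hX0]
        ring) X F hX hF
    refine h1.trans (mul_le_mul_of_nonneg_right (mul_le_mul_of_nonneg_left ?_ ?_) hW)
    · exact Real.rpow_le_rpow_of_exponent_le hX (by linarith)
    · positivity
  refine ⟨4 * κ, (2 / δ + 1) * (4 * C1), fun X hX1 => ?_⟩
  have hX0 : 0 < X := by linarith
  have key := finite_of_bound (Exc (4 * κ) X) ((2 / δ + 1) * (4 * C1) * X ^ (1 / 3 + ε))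
    (fun F hF => by
      refine (hmain X (X ^ (1 / 3 : ℝ)) F hX1 (Real.one_le_rpow hX1 (by norm_num))
        (fun v hv => ?_)).trans (le_of_eq ?_)
      · obtain ⟨⟨h1, h2, h3, h4⟩, h5⟩ := hF hv
        exact ⟨⟨h1, h2, h3⟩, h4, small ⟨h1, h2, h3⟩ hX0 h4, h5⟩
      · rw [← Real.rpow_mul hX0.le, mul_assoc, ← Real.rpow_add hX0]
        congr 2
        ring)
  refine ⟨key.1, fun Y hY1 => ?_, key.2⟩
  refine (finite_of_bound (ExcY (4 * κ) X Y) _ (fun F hF => hmain X Y F hX1 hY1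
    (fun v hv => ?_))).2
  obtain ⟨⟨⟨h1, h2, h3, h4⟩, h5⟩, h6⟩ := hF hv
  refine ⟨⟨h1, h2, h3⟩, h4, ?_, h5⟩
  rcases h6 with h6 | h6 | h6
  · exact ⟨0, h6⟩
  · exact ⟨1, h6⟩
  · exact ⟨2, h6⟩

end Pool.EXC
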